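import Mathlib

/-! Zariski closed and Zariski irreducible subsets of the general linear group. -/

namespace Pool.Agent.H940Z.Orb

/-- A subset of `GL n K` is Zariski closed if it is the set of invertible matrices at which some
family of polynomials in the matrix entries vanishes. -/
def IsZClosed {K : Type} [Field K] {n : ℕ} (S : Set (GL (Fin n) K)) : Prop :=
  ∃ I : Set (MvPolynomial (Fin n × Fin n) K), ∀ g : GL (Fin n) K,
    g ∈ S ↔ ∀ p ∈ I,
      MvPolynomial.eval (fun ij => (g : Matrix (Fin n) (Fin n) K) ij.1 ij.2) p = 0

/-- A subset of `GL n K` is Zariski irreducible if it is nonempty and, whenever it is covered by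
two Zariski closed sets, it lies in one of them. -/
def IsZIrreducible {K : Type} [Field K] {n : ℕ} (S : Set (GL (Fin n) K)) : Prop :=
  S.Nonempty ∧ ∀ A B : Set (GL (Fin n) K), IsZClosed A → IsZClosed B → S ⊆ A ∪ B →
    S ⊆ A ∨ S ⊆ B

end Pool.Agent.H940Z.Orb
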