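import Pool.Agent.H940Z.Orb.Defs

/-! The free two-step nilpotent unipotent group on three generators. -/

namespace Pool.Agent.H940Z.Orb

open AlgebraicGeometry CategoryTheory

/-- the matrix with parameters -/
def M {R : Type} [CommRing R] (a b c p q r : R) : Matrix (Fin 6) (Fin 6) R :=
  !![1, a, b, p, q, r; 0, 1, 0, b, c, 0; 0, 0, 1, 0, 0, c;
     0, 0, 0, 1, 0, 0; 0, 0, 0, 0, 1, 0; 0, 0, 0, 0, 0, 1]

theorem M_mul {R : Type} [CommRing R] (a b c p q r a' b' c' p' q' r' : R) :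
    M a b c p q r * M a' b' c' p' q' r' =
      M (a + a') (b + b') (c + c') (p + p' + a * b') (q + q' + a * c') (r + r' + b * c') := by
  ext i j
  fin_cases i <;> fin_cases j <;> simp [M, Matrix.mul_apply, Fin.sum_univ_succ] <;> ring

theorem M_zero {R : Type} [CommRing R] : M (0 : R) 0 0 0 0 0 = 1 := by
  ext i j
  fin_cases i <;> fin_cases j <;> simp [M]

theorem M_map {R S : Type} [CommRing R] [CommRing S] (φ : R →+* S) (a b c p q r : R)
    (i j : Fin 6) :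
    φ (M a b c p q r i j) = M (φ a) (φ b) (φ c) (φ p) (φ q) (φ r) i j := by
  fin_cases i <;> fin_cases j <;> simp [M]

variable {K : Type} [Field K]

/-- the invertible matrix with parameters -/
def mk (a b c p q r : K) : GL (Fin 6) K :=
  ⟨M a b c p q r, M (-a) (-b) (-c) (-p + a * b) (-q + a * c) (-r + b * c),
    by rw [M_mul, ← M_zero]; congr 1 <;> ring,
    by rw [M_mul, ← M_zero]; congr 1 <;> ring⟩

theorem mk_val (a b c p q r : K) : (mk a b c p q r : Matrix (Fin 6) (Fin 6) K) = M a b c p q r :=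
  rfl

theorem mk_mul (a b c p q r a' b' c' p' q' r' : K) :
    mk a b c p q r * mk a' b' c' p' q' r' =
      mk (a + a') (b + b') (c + c') (p + p' + a * b') (q + q' + a * c') (r + r' + b * c') :=
  Units.ext (M_mul _ _ _ _ _ _ _ _ _ _ _ _)

theorem mk_zero : mk (0 : K) 0 0 0 0 0 = 1 := Units.ext M_zero

theorem mk_inv (a b c p q r : K) :
    (mk a b c p q r)⁻¹ = mk (-a) (-b) (-c) (-p + a * b) (-q + a * c) (-r + b * c) :=
  Units.ext rfl

theorem mk_inj {a b c p q r a' b' c' p' q' r' : K}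
    (h : mk a b c p q r = mk a' b' c' p' q' r') :
    a = a' ∧ b = b' ∧ c = c' ∧ p = p' ∧ q = q' ∧ r = r' := by
  have h1 : M a b c p q r = M a' b' c' p' q' r' := congrArg Units.val h
  exact ⟨congrFun (congrFun h1 0) 1, congrFun (congrFun h1 0) 2, congrFun (congrFun h1 1) 4,
    congrFun (congrFun h1 0) 3, congrFun (congrFun h1 0) 4, congrFun (congrFun h1 0) 5⟩

/-- the big group -/
def GG (K : Type) [Field K] : Subgroup (GL (Fin 6) K) where
  carrier := {g | ∃ a b c p q r, g = mk a b c p q r}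
  mul_mem' := by
    rintro _ _ ⟨a, b, c, p, q, r, rfl⟩ ⟨a', b', c', p', q', r', rfl⟩
    exact ⟨_, _, _, _, _, _, mk_mul _ _ _ _ _ _ _ _ _ _ _ _⟩
  one_mem' := ⟨0, 0, 0, 0, 0, 0, mk_zero.symm⟩
  inv_mem' := by
    rintro _ ⟨a, b, c, p, q, r, rfl⟩
    exact ⟨_, _, _, _, _, _, mk_inv _ _ _ _ _ _⟩

/-- the commutative subgroup -/
def HH (K : Type) [Field K] : Subgroup (GL (Fin 6) K) where
  carrier := {g | ∃ a p q r, g = mk a 0 0 p q r}
  mul_mem' := by
    rintro _ _ ⟨a, p, q, r, rfl⟩ ⟨a', p', q', r', rfl⟩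
    refine ⟨a + a', p + p', q + q', r + r', ?_⟩
    rw [mk_mul]; congr 1 <;> ring
  one_mem' := ⟨0, 0, 0, 0, mk_zero.symm⟩
  inv_mem' := by
    rintro _ ⟨a, p, q, r, rfl⟩
    refine ⟨-a, -p, -q, -r, ?_⟩
    rw [mk_inv]; congr 1 <;> ring

theorem HH_le : HH K ≤ GG K := by
  rintro _ ⟨a, p, q, r, rfl⟩
  exact ⟨_, _, _, _, _, _, rfl⟩

theorem HH_comm : ∀ a ∈ HH K, ∀ b ∈ HH K, a * b = b * a := by
  rintro _ ⟨a, p, q, r, rfl⟩ _ ⟨a', p', q', r', rfl⟩
  rw [mk_mul, mk_mul]; congr 1 <;> ring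

theorem GG_unip : ∀ g ∈ GG K, IsNilpotent ((g : Matrix (Fin 6) (Fin 6) K) - 1) := by
  rintro _ ⟨a, b, c, p, q, r, rfl⟩
  refine ⟨3, ?_⟩
  rw [mk_val, pow_succ, pow_two]
  ext i j
  fin_cases i <;> fin_cases j <;>
    simp [M, Matrix.mul_apply, Fin.sum_univ_succ, Matrix.one_apply]

theorem HH_max (H' : Subgroup (GL (Fin 6) K)) (h1 : HH K ≤ H') (h2 : H' ≤ GG K)
    (h3 : ∀ a ∈ H', ∀ b ∈ H', a * b = b * a) : H' = HH K := by
  refine le_antisymm (fun g hg => ?_) h1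
  obtain ⟨a, b, c, p, q, r, rfl⟩ := h2 hg
  have h4 := h3 _ hg (mk 1 0 0 0 0 0) (h1 ⟨1, 0, 0, 0, rfl⟩)
  rw [mk_mul, mk_mul] at h4
  obtain ⟨-, -, -, h5, h6, -⟩ := mk_inj h4
  have hb : b = 0 := by linear_combination -h5
  have hc : c = 0 := by linear_combination -h6
  exact ⟨a, p, q, r, by rw [hb, hc]⟩

open MvPolynomial in
theorem GG_closed : IsZClosed (GG K : Set (GL (Fin 6) K)) := by
  refine ⟨Set.range (fun ij : Fin 6 × Fin 6 => X ij -
    M (X (0, 1)) (X (0, 2)) (X (1, 4)) (X (0, 3)) (X (0, 4)) (X (0, 5)) ij.1 ij.2), fun g => ?_⟩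
  constructor
  · rintro ⟨a, b, c, p, q, r, rfl⟩ _ ⟨ij, rfl⟩
    simp only [map_sub, M_map, eval_X, mk_val]
    exact sub_self _
  · intro h
    refine ⟨g.1 0 1, g.1 0 2, g.1 1 4, g.1 0 3, g.1 0 4, g.1 0 5, Units.ext ?_⟩
    ext i j
    have h1 := h _ ⟨(i, j), rfl⟩
    simp only [map_sub, M_map, eval_X] at h1
    exact sub_eq_zero.1 h1

open MvPolynomial in
theorem GG_irred [Infinite K] : IsZIrreducible (GG K : Set (GL (Fin 6) K)) := by
  refine ⟨⟨1, (GG K).one_mem⟩, ?_⟩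
  rintro A B ⟨I, hI⟩ ⟨J, hJ⟩ hAB
  let pull : MvPolynomial (Fin 6 × Fin 6) K → MvPolynomial (Fin 6) K := fun p =>
    bind₁ (fun ij => M (X 0) (X 1) (X 2) (X 3) (X 4) (X 5) ij.1 ij.2) p
  have hpull : ∀ (t : Fin 6 → K) (p : MvPolynomial (Fin 6 × Fin 6) K), eval t (pull p) =
      eval (fun ij => (mk (t 0) (t 1) (t 2) (t 3) (t 4) (t 5) :
        Matrix (Fin 6) (Fin 6) K) ij.1 ij.2) p := by
    intro t p
    have h1 := eval₂Hom_bind₁ (RingHom.id K) t
      (fun ij : Fin 6 × Fin 6 => M (X 0) (X 1) (X 2) (X 3) (X 4) (X 5) ij.1 ij.2) p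
    simp only [coe_eval₂Hom, eval₂_id] at h1
    rw [h1]
    simp only [M_map, eval_X, mk_val]
  by_contra hc
  push Not at hc
  obtain ⟨hA, hB⟩ := hc
  obtain ⟨g1, hg1, hg1'⟩ := Set.not_subset.1 hA
  obtain ⟨g2, hg2, hg2'⟩ := Set.not_subset.1 hB
  rw [hI] at hg1'
  rw [hJ] at hg2'
  push Not at hg1' hg2'
  obtain ⟨p1, hp1, hp1'⟩ := hg1'
  obtain ⟨p2, hp2, hp2'⟩ := hg2'
  have h0 : pull p1 * pull p2 = 0 := by
    refine MvPolynomial.funext (fun t => ?_)
    rw [map_mul, map_zero, hpull, hpull]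
    rcases hAB (show mk (t 0) (t 1) (t 2) (t 3) (t 4) (t 5) ∈ (GG K : Set (GL (Fin 6) K)) from
      ⟨_, _, _, _, _, _, rfl⟩) with h | h
    · rw [(hI _).1 h p1 hp1, zero_mul]
    · rw [(hJ _).1 h p2 hp2, mul_zero]
  rcases mul_eq_zero.1 h0 with h | h
  · obtain ⟨a, b, c, p, q, r, rfl⟩ := hg1
    apply hp1'
    have := hpull ![a, b, c, p, q, r] p1
    rw [h, map_zero] at this
    exact this.symm
  · obtain ⟨a, b, c, p, q, r, rfl⟩ := hg2
    apply hp2'
    have := hpull ![a, b, c, p, q, r] p2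
    rw [h, map_zero] at this
    exact this.symm

/-- abstract part: if a subgroup has an open orbit, every group element lies in `H L H` and a
stabilising element commuting with `H` is trivial -/
theorem orbit_facts [IsAlgClosed K] {G : Type} [Group G] (H : Set G) (h1H : (1 : G) ∈ H)
    (X : Scheme.{0}) (f : X ⟶ Spec (.of K)) [IsIntegral X] [IsSeparated f]
    [LocallyOfFiniteType f] (act : G → (X ⟶ X)) (hf : ∀ g, act g ≫ f = f) (h1 : act 1 = 𝟙 X)
    (hmul : ∀ g h, act (g * h) = act h ≫ act g)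
    (heff : ∀ g, (∀ x : X, IsClosed ({x} : Set X) → act g x = x) → g = 1)
    (x : X) (U : Set X) (hU : IsOpen U)
    (hO : {y | ∃ h ∈ H, act h x = y} = U ∩ {y | IsClosed ({y} : Set X)}) :
    (∀ g, ∃ h1 ∈ H, ∃ h2 ∈ H, act (h2⁻¹ * g * h1) x = x) ∧
    (∀ z, (∀ h ∈ H, z * h = h * z) → act z x = x → z = 1) := by
  have hJ : JacobsonSpace X := LocallyOfFiniteType.jacobsonSpace f
  have happ : ∀ g h (y : X), act (g * h) y = act g (act h y) := by
    intro g h y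
    rw [hmul]; simp
  have hone : ∀ y : X, act 1 y = y := by
    intro y
    rw [h1]; simp
  have hx : x ∈ U ∩ {y | IsClosed ({y} : Set X)} := by
    rw [← hO]; exact ⟨1, h1H, hone x⟩
  have hcl : ∀ g (y : X), IsClosed ({y} : Set X) → IsClosed ({act g y} : Set X) := by
    intro g y hy
    have h2 : ({act g y} : Set X) = (act g⁻¹) ⁻¹' {y} := by
      ext w
      simp only [Set.mem_singleton_iff, Set.mem_preimage]
      constructor
      · rintro rfl
        rw [← happ, inv_mul_cancel, hone]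
      · rintro rfl
        rw [← happ, mul_inv_cancel, hone]
    rw [h2]
    exact hy.preimage (act g⁻¹).continuous
  constructor
  · intro g
    have hV : IsOpen ((act g) ⁻¹' U) := hU.preimage (act g).continuous
    have hVne : ((act g) ⁻¹' U).Nonempty := by
      refine ⟨act g⁻¹ x, ?_⟩
      show act g (act g⁻¹ x) ∈ U
      rw [← happ, mul_inv_cancel, hone]
      exact hx.1
    have hne : (U ∩ (act g) ⁻¹' U).Nonempty :=
      nonempty_preirreducible_inter hU hV ⟨x, hx.1⟩ hVne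
    obtain ⟨y, hy, hy'⟩ := nonempty_inter_closedPoints hne (hU.inter hV).isLocallyClosed
    have hy1 : y ∈ U ∩ {y | IsClosed ({y} : Set X)} := ⟨hy.1, hy'⟩
    have hy2 : act g y ∈ U ∩ {y | IsClosed ({y} : Set X)} := ⟨hy.2, hcl g y hy'⟩
    rw [← hO] at hy1 hy2
    obtain ⟨k1, hk1, rfl⟩ := hy1
    obtain ⟨k2, hk2, hk⟩ := hy2
    refine ⟨k1, hk1, k2, hk2, ?_⟩
    rw [happ, happ, ← hk, ← happ, inv_mul_cancel, hone]
  · intro z hz hzx
    apply heff
    have hlf : LocallyOfFiniteType (act z ≫ f) := by rw [hf]; infer_instance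
    have h3 : act z = 𝟙 X := by
      refine ext_of_apply_eq f U hU.isLocallyClosed (hU.dense ⟨x, hx.1⟩) ?_ (by simp [hf])
      intro y hy hy'
      have hy1 : y ∈ U ∩ {y | IsClosed ({y} : Set X)} := ⟨hy, hy'⟩
      rw [← hO] at hy1
      obtain ⟨k, hk, rfl⟩ := hy1
      rw [← happ, hz k hk, happ, hzx]
      simp
    intro y _
    rw [h3]; simp

theorem no_open_orbit [IsAlgClosed K]
    (X : Scheme.{0}) (f : X ⟶ Spec (.of K)) [IsIntegral X] [IsSeparated f]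
    [LocallyOfFiniteType f] (act : GG K → (X ⟶ X)) (hf : ∀ g, act g ≫ f = f)
    (h1 : act 1 = 𝟙 X) (hmul : ∀ g h, act (g * h) = act h ≫ act g)
    (heff : ∀ g, (∀ x : X, IsClosed ({x} : Set X) → act g x = x) → g = 1)
    (x : X) : ¬ ∃ U : Set X, IsOpen U ∧
      {y | ∃ h : GG K, (h : GL (Fin 6) K) ∈ HH K ∧ act h x = y} =
        U ∩ {y | IsClosed ({y} : Set X)} := by
  rintro ⟨U, hU, hO⟩
  obtain ⟨hA, hB⟩ := orbit_facts {h : GG K | (h : GL (Fin 6) K) ∈ HH K} (HH K).one_mem X f act hf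
    h1 hmul heff x U hU hO
  have happ : ∀ g h (y : X), act (g * h) y = act g (act h y) := by
    intro g h y
    rw [hmul]; simp
  have hone : ∀ y : X, act 1 y = y := by
    intro y
    rw [h1]; simp
  have hinv : ∀ g, act g x = x → act g⁻¹ x = x := by
    intro g hg
    conv_lhs => rw [← hg]
    rw [← happ, inv_mul_cancel, hone]
  have hC : ∀ b c : K, ∃ l : GG K, (∃ a p q r, (l : GL (Fin 6) K) = mk a b c p q r) ∧
      act l x = x := by
    intro b c
    obtain ⟨k1, ⟨a1, p1, q1, r1, e1⟩, k2, ⟨a2, p2, q2, r2, e2⟩, hk⟩ :=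
      hA ⟨mk 0 b c 0 0 0, _, _, _, _, _, _, rfl⟩
    refine ⟨_, ?_, hk⟩
    simp only [Subgroup.coe_mul, Subgroup.coe_inv, e1, e2, mk_inv, mk_mul, neg_zero, zero_add,
      add_zero]
    exact ⟨_, _, _, _, rfl⟩
  obtain ⟨l1, ⟨a1, p1, q1, r1, e1⟩, hl1⟩ := hC 1 0
  obtain ⟨l2, ⟨a2, p2, q2, r2, e2⟩, hl2⟩ := hC 0 1
  have hz : ((l1 * l2 * l1⁻¹ * l2⁻¹ : GG K) : GL (Fin 6) K) = mk 0 0 0 (-a2) a1 1 := by
    simp only [Subgroup.coe_mul, Subgroup.coe_inv, e1, e2, mk_inv, mk_mul]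
    congr 1 <;> ring
  have h2 : l1 * l2 * l1⁻¹ * l2⁻¹ = 1 := by
    apply hB
    · rintro h ⟨a, p, q, r, e⟩
      apply Subtype.ext
      rw [Subgroup.coe_mul, Subgroup.coe_mul _ h, hz, e, mk_mul, mk_mul]
      congr 1 <;> ring
    · rw [happ, happ, happ, hinv _ hl2, hinv _ hl1, hl2, hl1]
  rw [h2, Subgroup.coe_one, ← mk_zero] at hz
  exact zero_ne_one (mk_inj hz).2.2.2.2.2

end Pool.Agent.H940Z.Orb
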